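import Pool.Agent.Run7.h34.Main

/-! # The group `N(V)` for surfaces which cover the plane by a purely inseparable map

Let `K` be a field with separable closure `Ks`, and let `V` be a smooth geometrically integral
scheme over `K`. Suppose that some nonempty open subscheme `U` of `V` over `Ks` has a dominant
universally closed (for example proper) morphism `π` over `Ks` to the affine plane over `Ks`, such
that the `p ^ n`-th powers of all rational functions on `V` over `Ks` are rational functions of
the plane, where `p` is the exponential characteristic of `K`. Let `L` be a finite extension of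
`K` inside `Ks` such that the two coordinate functions of `π` are fixed by the automorphisms
over `L`. Then `N(V)`, and so its subgroup `Sha N(V)`, is killed by `[L : K] * (p ^ n) ^ 2`.
-/

namespace Pool.Agent.Results.MP_1bee03_ag.PlaneCovers

open AlgebraicGeometry CategoryTheory Run7.h34

universe u

theorem result {K : Type u} [Field K] {V : Scheme.{u}} (f : V ⟶ Spec (CommRingCat.of K))
    [GeometricallyIntegral f] [Smooth f] (Ks : Type u) [Field Ks] [Algebra K Ks]
    [IsSepClosure K Ks] (P : PlaneMap (VB.snd f Ks)) (p n : ℕ) [ExpChar K p]
    (hP : P.Exponent (p ^ n)) (L : IntermediateField K Ks) [FiniteDimensional K L]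
    (hL : ∀ g ∈ L.fixingSubgroup, ∀ i, FFm f (g : Ks →ₐ[K] Ks) (P.crd i) = P.crd i)
    (a : (Ks ≃ₐ[K] Ks) × (Ks ≃ₐ[K] Ks) → K2 (FFd f Ks)) :
    (InShaN f a → InN f a) ∧
      (InN f a → IsZero f ((Module.finrank K L * (p ^ n) ^ 2) • a)) := by
  refine ⟨fun ha => ha.1, fun ha => ?_⟩
  rw [pow_two]
  exact main_cocycle f Ks P p n hP L hL ha

end Pool.Agent.Results.MP_1bee03_ag.PlaneCovers
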